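import Mathlib

/-!
Supplements of a normal subgroup `N = ker f` (`f : G →* K` onto a nonabelian finite simple group)
whose Sylow subgroups are centralised modulo `N`: if `K` is not a section of `N`, then the
centraliser of `N` maps onto `K`.
-/

set_option autoImplicit false

open Subgroup
open scoped commutatorElement

universe u v

namespace Pool.Agent.MP_cb38be.H12

variable {K : Type v} {G : Type u} [Group K] [Group G]

/-- `X` covers `K`: `f` maps `X` onto `K`. -/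
def Cov (f : G →* K) (X : Subgroup G) : Prop := ∀ k : K, ∃ x ∈ X, f x = k

/-- `K` is not a section of the kernel of `f` (relational form). -/
def NoSec (f : G →* K) : Prop :=
  ∀ R : Subgroup (G × G), (∀ x ∈ R, f x.1 = 1) → (∀ x ∈ R, x.1 = 1 → f x.2 = 1) →
    ¬ ∀ k : K, ∃ x ∈ R, f x.2 = k

theorem Cov.mono {f : G →* K} {X Y : Subgroup G} (h : Cov f X) (hXY : X ≤ Y) : Cov f Y := by
  intro k
  obtain ⟨x, hx, rfl⟩ := h k
  exact ⟨x, hXY hx, rfl⟩

theorem cov_iff (f : G →* K) (X : Subgroup G) : Cov f X ↔ X.map f = ⊤ := by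
  constructor
  · intro h
    rw [eq_top_iff]
    intro k _
    obtain ⟨x, hx, rfl⟩ := h k
    exact ⟨x, hx, rfl⟩
  · intro h k
    have : k ∈ X.map f := by rw [h]; trivial
    obtain ⟨x, hx, rfl⟩ := this
    exact ⟨x, hx, rfl⟩

/-- a subgroup normalised by a covering subgroup lies in the kernel or covers -/
theorem dich [IsSimpleGroup K] (f : G →* K) {X Y : Subgroup G} (hY : Cov f Y)
    (hn : ∀ y ∈ Y, ∀ x ∈ X, y * x * y⁻¹ ∈ X) : (∀ x ∈ X, f x = 1) ∨ Cov f X := by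
  have hN : (X.map f).Normal := by
    constructor
    rintro _ ⟨x, hx, rfl⟩ k
    obtain ⟨y, hy, rfl⟩ := hY k
    exact ⟨y * x * y⁻¹, hn y hy x hx, by simp⟩
  rcases hN.eq_bot_or_eq_top with h | h
  · left
    intro x hx
    have : f x ∈ X.map f := ⟨x, hx, rfl⟩
    rw [h] at this
    simpa using this
  · right
    exact (cov_iff f X).2 h

/-- pairs acting in the same way on `W` -/
def rel (A B W : Subgroup G) (hA : ∀ a ∈ A, ∀ w ∈ W, a * w * a⁻¹ ∈ W) : Subgroup (G × G) where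
  carrier := {x | x.1 ∈ A ∧ x.2 ∈ B ∧ ∀ w ∈ W, x.1 * w * x.1⁻¹ = x.2 * w * x.2⁻¹}
  one_mem' := ⟨A.one_mem, B.one_mem, by simp⟩
  mul_mem' := by
    rintro ⟨a, b⟩ ⟨a', b'⟩ ⟨h1, h2, h3⟩ ⟨h1', h2', h3'⟩
    refine ⟨A.mul_mem h1 h1', B.mul_mem h2 h2', ?_⟩
    intro w hw
    simp only [Prod.mk_mul_mk] at *
    have e1 : a * a' * w * (a * a')⁻¹ = a * (a' * w * a'⁻¹) * a⁻¹ := by group
    have e2 : b * b' * w * (b * b')⁻¹ = b * (b' * w * b'⁻¹) * b⁻¹ := by group
    rw [e1, e2, h3 _ (hA a' h1' w hw), h3' w hw]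
  inv_mem' := by
    rintro ⟨a, b⟩ ⟨h1, h2, h3⟩
    refine ⟨A.inv_mem h1, B.inv_mem h2, ?_⟩
    intro w hw
    simp only [Prod.inv_mk, inv_inv] at *
    have hw' : a⁻¹ * w * a ∈ W := by
      have := hA a⁻¹ (A.inv_mem h1) w hw
      simpa using this
    have e1 := h3 _ hw'
    have e2 : a * (a⁻¹ * w * a) * a⁻¹ = w := by group
    rw [e2] at e1
    calc a⁻¹ * w * a = b⁻¹ * (b * (a⁻¹ * w * a) * b⁻¹) * b := by group
      _ = b⁻¹ * w * b := by rw [← e1]

theorem key [IsSimpleGroup K] {f : G →* K} (hs : NoSec f) {W A B T : Subgroup G}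
    (hB : Cov f B) (hT : Cov f T)
    (hBW : ∀ b ∈ B, ∀ w ∈ W, b * w * b⁻¹ ∈ W)
    (hAW : ∀ a ∈ A, ∀ w ∈ W, a * w * a⁻¹ ∈ W)
    (hTW : ∀ t ∈ T, ∀ w ∈ W, t * w = w * t)
    (hA : ∀ a ∈ A, f a = 1)
    (hBT : ∀ b ∈ B, ∀ t ∈ T, f b = f t → b * t⁻¹ ∈ A) :
    Cov f (B ⊓ centralizer (W : Set G)) := by
  have hnorm : ∀ y ∈ B, ∀ x ∈ B ⊓ centralizer (W : Set G),
      y * x * y⁻¹ ∈ B ⊓ centralizer (W : Set G) := by
    intro y hy x hx
    refine mem_inf.2 ⟨B.mul_mem (B.mul_mem hy hx.1) (B.inv_mem hy), ?_⟩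
    rw [mem_centralizer_iff]
    intro w hw
    have hw' : y⁻¹ * w * y ∈ W := by
      have := hBW y⁻¹ (B.inv_mem hy) w hw
      simpa using this
    have hc := mem_centralizer_iff.1 hx.2 _ hw'
    calc w * (y * x * y⁻¹) = y * ((y⁻¹ * w * y) * x) * y⁻¹ := by group
      _ = y * (x * (y⁻¹ * w * y)) * y⁻¹ := by rw [hc]
      _ = y * x * y⁻¹ * w := by group
  rcases dich f hB hnorm with h | h
  · exfalso
    refine hs (rel A B W hAW) ?_ ?_ ?_
    · rintro x ⟨h1, -, -⟩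
      exact hA _ h1
    · rintro x ⟨h1, h2, h3⟩ hx1
      apply h
      refine mem_inf.2 ⟨h2, ?_⟩
      rw [mem_centralizer_iff]
      intro w hw
      have := h3 w hw
      rw [hx1] at this
      simp only [one_mul, inv_one, mul_one] at this
      calc w * x.2 = (x.2 * w * x.2⁻¹) * x.2 := by rw [← this]
        _ = x.2 * w := by group
    · intro k
      obtain ⟨b, hb, hbk⟩ := hB k
      obtain ⟨t, ht, htk⟩ := hT k
      refine ⟨(b * t⁻¹, b), ⟨hBT b hb t ht (hbk.trans htk.symm), hb, ?_⟩, hbk⟩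
      intro w hw
      have := hTW t ht w hw
      simp only
      calc b * t⁻¹ * w * (b * t⁻¹)⁻¹ = b * t⁻¹ * (w * t) * b⁻¹ := by group
        _ = b * t⁻¹ * (t * w) * b⁻¹ := by rw [this]
        _ = b * w * b⁻¹ := by group
  · exact h

/-- commutators only depend on a covering subgroup -/
theorem comm_eq {f : G →* K} {D X : Subgroup G} (hX : X ≤ D) (hc : Cov f X)
    (hz : ∀ z ∈ D, f z = 1 → ∀ d ∈ D, z * d = d * z) : ⁅D, D⁆ = ⁅X, X⁆ := by
  apply le_antisymm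
  · rw [commutator_le]
    intro d hd d' hd'
    obtain ⟨x, hx, hxd⟩ := hc (f d)
    obtain ⟨x', hx', hxd'⟩ := hc (f d')
    have hzD : x⁻¹ * d ∈ D := D.mul_mem (D.inv_mem (hX hx)) hd
    have hzD' : x'⁻¹ * d' ∈ D := D.mul_mem (D.inv_mem (hX hx')) hd'
    have hz1 : f (x⁻¹ * d) = 1 := by rw [map_mul, map_inv, hxd]; simp
    have hz1' : f (x'⁻¹ * d') = 1 := by rw [map_mul, map_inv, hxd']; simp
    have c := hz _ hzD hz1
    have c' := hz _ hzD' hz1'
    set z := x⁻¹ * d with hzdef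
    set z' := x'⁻¹ * d' with hzdef'
    have hd1 : d = x * z := by rw [hzdef]; group
    have hd1' : d' = x' * z' := by rw [hzdef']; group
    have : ⁅d, d'⁆ = ⁅x, x'⁆ := by
      rw [commutatorElement_def, commutatorElement_def]
      have e1 : z * d' = d' * z := c d' hd'
      have e2 : z' * x = x * z' := c' x (hX hx)
      calc d * d' * d⁻¹ * d'⁻¹ = x * (z * d') * z⁻¹ * x⁻¹ * d'⁻¹ := by rw [hd1]; group
        _ = x * (d' * z) * z⁻¹ * x⁻¹ * d'⁻¹ := by rw [e1]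
        _ = x * x' * (z' * x⁻¹) * z'⁻¹ * x'⁻¹ := by rw [hd1']; group
        _ = x * x' * (x⁻¹ * (x * z') * x⁻¹) * z'⁻¹ * x'⁻¹ := by group
        _ = x * x' * (x⁻¹ * (z' * x) * x⁻¹) * z'⁻¹ * x'⁻¹ := by rw [e2]
        _ = x * x' * x⁻¹ * x'⁻¹ := by group
    rw [this]
    exact commutator_mem_commutator hx hx'
  · exact commutator_mono hX hX

/-- `C_G(S) ∩ C_G(C_N(S))`, `N = ker f`. -/
def DD (f : G →* K) (S : Set G) : Subgroup G :=
  centralizer S ⊓ centralizer ((f.ker ⊓ centralizer S : Subgroup G) : Set G)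

/-- its derived subgroup -/
def EE (f : G →* K) (S : Set G) : Subgroup G := ⁅DD f S, DD f S⁆

theorem DD_comm {f : G →* K} {S : Set G} {n d : G} (hn : n ∈ centralizer S) (hn1 : f n = 1)
    (hd : d ∈ DD f S) : n * d = d * n :=
  mem_centralizer_iff.1 hd.2 n ⟨hn1, hn⟩

theorem DD_comm' {f : G →* K} {S : Set G} : ∀ z ∈ DD f S, f z = 1 → ∀ d ∈ DD f S, z * d = d * z :=
  fun _ hz h1 _ hd => DD_comm hz.1 h1 hd

theorem EE_le (f : G →* K) (S : Set G) : EE f S ≤ DD f S := commutator_le_left_of_self _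
where commutator_le_left_of_self (H : Subgroup G) : ⁅H, H⁆ ≤ H := by
        rw [commutator_le]
        intro a ha b hb
        exact H.mul_mem (H.mul_mem (H.mul_mem ha hb) (H.inv_mem ha)) (H.inv_mem hb)

theorem EE_cov {f : G →* K} (hK : ⁅(⊤ : Subgroup K), (⊤ : Subgroup K)⁆ = ⊤) {S : Set G}
    (h : Cov f (DD f S)) : Cov f (EE f S) := by
  rw [cov_iff] at h ⊢
  rw [EE, map_commutator, h, hK]

theorem EE_perfect {f : G →* K} (hK : ⁅(⊤ : Subgroup K), (⊤ : Subgroup K)⁆ = ⊤) {S : Set G}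
    (h : Cov f (DD f S)) : ⁅EE f S, EE f S⁆ = EE f S :=
  (comm_eq (EE_le f S) (EE_cov hK h) DD_comm').symm

theorem EE_eq [IsSimpleGroup K] {f : G →* K} (hs : NoSec f) {S₁ S₂ : Set G} (hS : S₁ ⊆ S₂)
    (h1 : Cov f (DD f S₁)) (h2 : Cov f (DD f S₂)) : EE f S₁ = EE f S₂ := by
  have hle : centralizer S₂ ≤ centralizer S₁ := centralizer_le hS
  have hkey : Cov f (DD f S₂ ⊓ centralizer ((f.ker ⊓ centralizer S₁ : Subgroup G) : Set G)) := by
    refine key hs (A := f.ker ⊓ centralizer S₁) (T := DD f S₁) h2 h1 ?_ ?_ ?_ ?_ ?_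
    · intro b hb w hw
      refine mem_inf.2 ⟨?_, ?_⟩
      · have := (mem_inf.1 hw).1
        rw [MonoidHom.mem_ker] at this ⊢
        simp [this]
      · exact mul_mem (mul_mem (hle hb.1) (mem_inf.1 hw).2) (inv_mem (hle hb.1))
    · intro a ha w hw
      exact mul_mem (mul_mem ha hw) (inv_mem ha)
    · intro t ht w hw
      exact (DD_comm hw.2 hw.1 ht).symm
    · intro a ha
      exact ha.1
    · intro b hb t ht hbt
      refine mem_inf.2 ⟨?_, ?_⟩
      · rw [MonoidHom.mem_ker, map_mul, map_inv, hbt, mul_inv_cancel]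
      · exact mul_mem (hle hb.1) (inv_mem (mem_inf.1 ht).1)
  have hX : Cov f (DD f S₁ ⊓ DD f S₂) := by
    apply hkey.mono
    rintro x ⟨hx1, hx2⟩
    exact ⟨⟨hle hx1.1, hx2⟩, hx1⟩
  rw [EE, EE, comm_eq inf_le_left hX DD_comm', comm_eq inf_le_right hX DD_comm']

/-- conjugation equivariance -/
theorem mem_DD_conj {f : G →* K} (y g x : G) :
    x ∈ DD f {y * g * y⁻¹} ↔ y⁻¹ * x * y ∈ DD f {g} := by
  have hc : ∀ x : G, x ∈ centralizer ({y * g * y⁻¹} : Set G) ↔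
      y⁻¹ * x * y ∈ centralizer ({g} : Set G) := by
    intro x
    rw [mem_centralizer_singleton_iff, mem_centralizer_singleton_iff]
    constructor
    · intro h
      calc y⁻¹ * x * y * g = y⁻¹ * (x * (y * g * y⁻¹)) * y := by group
        _ = y⁻¹ * ((y * g * y⁻¹) * x) * y := by rw [h]
        _ = g * (y⁻¹ * x * y) := by group
    · intro h
      calc x * (y * g * y⁻¹) = y * (y⁻¹ * x * y * g) * y⁻¹ := by group
        _ = y * (g * (y⁻¹ * x * y)) * y⁻¹ := by rw [h]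
        _ = y * g * y⁻¹ * x := by group
  constructor
  · intro hx
    obtain ⟨h1, h2⟩ := mem_inf.1 hx
    refine mem_inf.2 ⟨(hc x).1 h1, ?_⟩
    rw [mem_centralizer_iff] at h2 ⊢
    intro n hn
    obtain ⟨hn1, hn2⟩ := mem_inf.1 hn
    have hn : y * n * y⁻¹ ∈ ((f.ker ⊓ centralizer ({y * g * y⁻¹} : Set G) : Subgroup G) : Set G) := by
      refine mem_inf.2 ⟨?_, ?_⟩
      · rw [MonoidHom.mem_ker] at hn1 ⊢
        simp [hn1]
      · rw [hc]
        have : y⁻¹ * (y * n * y⁻¹) * y = n := by group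
        rw [this]
        exact hn2
    have := h2 _ hn
    calc n * (y⁻¹ * x * y) = y⁻¹ * ((y * n * y⁻¹) * x) * y := by group
      _ = y⁻¹ * (x * (y * n * y⁻¹)) * y := by rw [this]
      _ = y⁻¹ * x * y * n := by group
  · intro hx
    obtain ⟨h1, h2⟩ := mem_inf.1 hx
    refine mem_inf.2 ⟨(hc x).2 h1, ?_⟩
    rw [mem_centralizer_iff] at h2 ⊢
    intro n hn
    obtain ⟨hn1, hn2⟩ := mem_inf.1 hn
    have hn : y⁻¹ * n * y ∈ ((f.ker ⊓ centralizer ({g} : Set G) : Subgroup G) : Set G) := by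
      refine mem_inf.2 ⟨?_, ?_⟩
      · rw [MonoidHom.mem_ker] at hn1 ⊢
        simp [hn1]
      · exact (hc n).1 hn2
    have := h2 _ hn
    calc n * x = y * ((y⁻¹ * n * y) * (y⁻¹ * x * y)) * y⁻¹ := by group
      _ = y * ((y⁻¹ * x * y) * (y⁻¹ * n * y)) * y⁻¹ := by rw [this]
      _ = x * n := by group

theorem EE_conj {f : G →* K} (y g : G) :
    EE f {y * g * y⁻¹} = (EE f {g}).map (MulAut.conj y).toMonoidHom := by
  have h : DD f {y * g * y⁻¹} = (DD f {g}).map (MulAut.conj y).toMonoidHom := by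
    ext x
    rw [mem_DD_conj, mem_map]
    constructor
    · intro h
      exact ⟨_, h, by simp [mul_assoc]⟩
    · rintro ⟨z, hz, rfl⟩
      simpa [mul_assoc] using hz
  rw [EE, EE, map_commutator, h]

theorem mem_EE_conj {f : G →* K} (y g x : G) :
    x ∈ EE f {y * g * y⁻¹} ↔ y⁻¹ * x * y ∈ EE f {g} := by
  rw [EE_conj, mem_map]
  constructor
  · rintro ⟨z, hz, rfl⟩
    simpa [mul_assoc] using hz
  · intro h
    exact ⟨_, h, by simp [mul_assoc]⟩

end Pool.Agent.MP_cb38be.H12
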