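import Mathlib

/-! A counting lemma: the nonidentity part of a finite group cannot be partitioned (modulo a
subgroup `Z`) by proper self-normalising subgroups permuted by conjugation. -/

set_option autoImplicit false

open Subgroup Finset

universe u

namespace Pool.Agent.MP_cb38be.H12

theorem count_contra {N : Type u} [Group N] [Finite N] (Z : Subgroup N) (M : N → Subgroup N)
    (hZM : ∀ g, g ∉ Z → Z ≤ M g)
    (hself : ∀ g, g ∉ Z → g ∈ M g)
    (heq : ∀ g h, g ∉ Z → h ∈ M g → h ∉ Z → M h = M g)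
    (hconj : ∀ y g h, g ∉ Z → (h ∈ M (y * g * y⁻¹) ↔ y⁻¹ * h * y ∈ M g))
    (hZc : ∀ y g, g ∉ Z → y * g * y⁻¹ ∉ Z)
    (hnorm : ∀ g y, g ∉ Z → (∀ h, h ∈ M g ↔ y⁻¹ * h * y ∈ M g) → y ∈ M g)
    (htop : ∀ g, g ∉ Z → M g ≠ ⊤) (hZ : Z ≠ ⊤) : False := by
  classical
  have := Fintype.ofFinite N
  -- finsets
  set FZ : Finset N := univ.filter (· ∈ Z) with hFZ
  let FM : N → Finset N := fun g => univ.filter (· ∈ M g)
  let T : N → Finset N := fun g => univ.filter (fun m => m ∈ M g ∧ m ∉ Z)
  let U : N → Finset N := fun g => (univ ×ˢ T g).image (fun x : N × N => x.1 * x.2 * x.1⁻¹)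
  have hFMcard : ∀ H : Subgroup N, #(univ.filter (· ∈ H)) = Nat.card H := by
    intro H
    rw [Nat.card_eq_fintype_card, Fintype.card_subtype]
  have hTcard : ∀ g, g ∉ Z → #(T g) + Nat.card Z = Nat.card (M g) := by
    intro g hg
    rw [← hFMcard, ← hFMcard, ← Finset.card_union_of_disjoint]
    · congr 1
      ext m
      simp only [T, mem_union, mem_filter, mem_univ, true_and]
      constructor
      · rintro (h | h)
        · exact h.1
        · exact hZM g hg h
      · intro h
        by_cases hm : m ∈ Z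
        · exact Or.inr hm
        · exact Or.inl ⟨h, hm⟩
    · rw [Finset.disjoint_left]
      intro m hm hm'
      simp only [T, mem_filter, mem_univ, true_and] at hm hm'
      exact hm.2 hm'
  have hTpos : ∀ g, g ∉ Z → 2 * Nat.card Z ≤ Nat.card (M g) := by
    intro g hg
    obtain ⟨c, hc⟩ := Subgroup.card_dvd_of_le (hZM g hg)
    have hZpos : 0 < Nat.card Z := Nat.card_pos
    have h1 : 0 < #(T g) := Finset.card_pos.2 ⟨g, by
      simp only [T, mem_filter, mem_univ, true_and]
      exact ⟨hself g hg, hg⟩⟩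
    have h2 := hTcard g hg
    have hc2 : 2 ≤ c := by
      by_contra hlt
      have : c ≤ 1 := by omega
      have h3 : Nat.card (M g) ≤ Nat.card Z := by
        rw [hc]
        calc Nat.card Z * c ≤ Nat.card Z * 1 := Nat.mul_le_mul_left _ this
          _ = Nat.card Z := by ring
      omega
    rw [hc, Nat.mul_comm]
    exact Nat.mul_le_mul_left _ hc2
  have hMlt : ∀ g, g ∉ Z → Nat.card (M g) < Nat.card N := by
    intro g hg
    refine lt_of_le_of_ne (Nat.card_le_card_of_injective _ (M g).subtype_injective) ?_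
    intro h
    exact htop g hg (Subgroup.eq_top_of_card_eq _ h)
  have hconjM : ∀ g m y, g ∉ Z → m ∈ M g → m ∉ Z → y * m * y⁻¹ ∈ M g → y ∈ M g := by
    intro g m y hg hm hmZ hy
    have h1 := heq g m hg hm hmZ
    have h2 := heq g _ hg hy (hZc y m hmZ)
    apply hnorm g y hg
    intro h
    have h3 := hconj y m h hmZ
    rw [h2, h1] at h3
    exact h3
  have hUcard : ∀ g, g ∉ Z → Nat.card N * #(T g) = Nat.card (M g) * #(U g) := by
    intro g hg
    have hs : #((univ : Finset N) ×ˢ T g) = Nat.card N * #(T g) := by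
      rw [Finset.card_product, Finset.card_univ, Nat.card_eq_fintype_card]
    rw [← hs]
    -- the size of each fibre
    have hfib : ∀ a ∈ U g, #{x ∈ (univ : Finset N) ×ˢ T g | x.1 * x.2 * x.1⁻¹ = a} =
        Nat.card (M g) := by
      intro a ha
      obtain ⟨⟨x₀, m₀⟩, hx₀, hxa⟩ := Finset.mem_image.1 ha
      simp only [T, mem_product, mem_univ, true_and, mem_filter] at hx₀
      simp only at hxa
      rw [← hFMcard]
      refine Finset.card_bij (fun x _ => x₀⁻¹ * x.1) ?_ ?_ ?_
      · rintro ⟨x, m⟩ hx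
        simp only [T, mem_product, mem_univ, true_and, mem_filter] at hx ⊢
        obtain ⟨⟨hm, hmZ⟩, hxm⟩ := hx
        apply hconjM g m _ hg hm hmZ
        have : x₀⁻¹ * x * m * (x₀⁻¹ * x)⁻¹ = m₀ := by
          calc x₀⁻¹ * x * m * (x₀⁻¹ * x)⁻¹ = x₀⁻¹ * (x * m * x⁻¹) * x₀ := by group
            _ = x₀⁻¹ * (x₀ * m₀ * x₀⁻¹) * x₀ := by rw [hxm, ← hxa]
            _ = m₀ := by group
        rw [this]
        exact hx₀.1
      · rintro ⟨x, m⟩ hx ⟨x', m'⟩ hx' h
        simp only [T, mem_product, mem_univ, true_and, mem_filter] at hx hx' h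
        have hxx : x = x' := mul_left_cancel h
        subst hxx
        have h1 : x * m * x⁻¹ = x * m' * x⁻¹ := hx.2.trans hx'.2.symm
        have h2 : m = m' := mul_left_cancel (mul_right_cancel h1)
        rw [h2]
      · intro y hy
        simp only [mem_filter, mem_univ, true_and] at hy
        refine ⟨(x₀ * y, y⁻¹ * m₀ * y), ?_, by simp⟩
        simp only [T, mem_product, mem_univ, true_and, mem_filter]
        refine ⟨⟨?_, ?_⟩, ?_⟩
        · exact mul_mem (mul_mem (inv_mem hy) hx₀.1) hy
        · have := hZc y⁻¹ m₀ hx₀.2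
          simpa using this
        · rw [← hxa]
          group
    apply le_antisymm
    · exact Finset.card_le_mul_card_image _ _ (fun a ha => (hfib a ha).le)
    · exact Finset.mul_card_image_le_card _ _ (fun a ha => (hfib a ha).ge)
  have hUsub : ∀ g, g ∉ Z → U g ⊆ univ.filter (fun m => m ∉ Z) := by
    intro g hg a ha
    obtain ⟨⟨x, m⟩, hx, rfl⟩ := Finset.mem_image.1 ha
    simp only [T, mem_product, mem_univ, true_and, mem_filter] at hx ⊢
    exact hZc x m hx.2
  have hcompl : #(univ.filter (fun m : N => m ∉ Z)) + Nat.card Z = Nat.card N := by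
    rw [← hFMcard, Nat.card_eq_fintype_card, ← Finset.card_univ, add_comm]
    exact Finset.card_filter_add_card_filter_not (· ∈ Z)
  have hhalf : ∀ g, g ∉ Z → Nat.card N ≤ 2 * #(U g) := by
    intro g hg
    have h1 := hUcard g hg
    have h2 := hTcard g hg
    have h3 := hTpos g hg
    have hM : 0 < Nat.card (M g) := Nat.card_pos
    have h4 : Nat.card (M g) ≤ 2 * #(T g) := by omega
    have h5 : Nat.card (M g) * Nat.card N ≤ Nat.card (M g) * (2 * #(U g)) := by
      calc Nat.card (M g) * Nat.card N ≤ (2 * #(T g)) * Nat.card N := Nat.mul_le_mul_right _ h4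
        _ = 2 * (Nat.card N * #(T g)) := by ring
        _ = Nat.card (M g) * (2 * #(U g)) := by rw [h1]; ring
    exact Nat.le_of_mul_le_mul_left h5 hM
  have hlt : ∀ g, g ∉ Z → #(U g) < #(univ.filter (fun m : N => m ∉ Z)) := by
    intro g hg
    have h1 := hUcard g hg
    have h2 := hTcard g hg
    have h6 := hMlt g hg
    have hM : 0 < Nat.card (M g) := Nat.card_pos
    have hZpos : 0 < Nat.card Z := Nat.card_pos
    by_contra hge
    push Not at hge
    set c := #(univ.filter (fun m : N => m ∉ Z))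
    have h7 : Nat.card (M g) * c ≤ Nat.card N * #(T g) := by
      rw [h1]; exact Nat.mul_le_mul_left _ hge
    have h8 : Nat.card (M g) * c + Nat.card (M g) * Nat.card Z = Nat.card (M g) * Nat.card N := by
      rw [← Nat.mul_add, hcompl]
    have h9 : Nat.card N * #(T g) + Nat.card N * Nat.card Z = Nat.card N * Nat.card (M g) := by
      rw [← Nat.mul_add, h2]
    have h10 : Nat.card (M g) * Nat.card Z < Nat.card N * Nat.card Z :=
      Nat.mul_lt_mul_of_pos_right h6 hZpos
    have h11 : Nat.card N * Nat.card (M g) = Nat.card (M g) * Nat.card N := Nat.mul_comm _ _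
    omega
  -- two disjoint pieces
  obtain ⟨g, hg⟩ : ∃ g, g ∉ Z := by
    by_contra h
    push Not at h
    exact hZ ((Subgroup.eq_top_iff' Z).2 h)
  obtain ⟨g', hg', hgU⟩ : ∃ g', g' ∈ univ.filter (fun m : N => m ∉ Z) ∧ g' ∉ U g := by
    by_contra h
    push Not at h
    have : univ.filter (fun m : N => m ∉ Z) ⊆ U g := fun a ha => h a ha
    exact absurd (Finset.card_le_card this) (not_le.2 (hlt g hg))
  have hg'Z : g' ∉ Z := by simpa using hg'
  have hdisj : Disjoint (U g) (U g') := by
    rw [Finset.disjoint_left]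
    intro a ha ha'
    obtain ⟨⟨x, m⟩, hx, hxa⟩ := Finset.mem_image.1 ha
    obtain ⟨⟨x', m'⟩, hx', hxa'⟩ := Finset.mem_image.1 ha'
    simp only [T, mem_product, mem_univ, true_and, mem_filter] at hx hx' hxa hxa'
    apply hgU
    -- m' = y m y⁻¹ with y = x'⁻¹ x
    set y := x'⁻¹ * x with hy
    have hm' : m' = y * m * y⁻¹ := by
      calc m' = x'⁻¹ * (x' * m' * x'⁻¹) * x' := by group
        _ = x'⁻¹ * (x * m * x⁻¹) * x' := by rw [hxa', ← hxa]
        _ = y * m * y⁻¹ := by rw [hy]; group
    have h1 : M m' = M g' := heq g' m' hg'Z hx'.1 hx'.2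
    have h2 : M m = M g := heq g m hg hx.1 hx.2
    have h3 : g' ∈ M m' := by rw [h1]; exact hself g' hg'Z
    rw [hm', hconj y m g' hx.2, h2] at h3
    refine Finset.mem_image.2 ⟨(y, y⁻¹ * g' * y), ?_, ?_⟩
    · simp only [T, mem_product, mem_univ, true_and, mem_filter]
      refine ⟨h3, ?_⟩
      have := hZc y⁻¹ g' hg'Z
      simpa using this
    · simp only
      group
  have hunion : #(U g) + #(U g') ≤ #(univ.filter (fun m : N => m ∉ Z)) := by
    rw [← Finset.card_union_of_disjoint hdisj]
    exact Finset.card_le_card (Finset.union_subset (hUsub g hg) (hUsub g' hg'Z))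
  have h1 := hhalf g hg
  have h2 := hhalf g' hg'Z
  have hZpos : 0 < Nat.card Z := Nat.card_pos
  omega

end Pool.Agent.MP_cb38be.H12
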