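import Pool.Agent.Lib.MP_cb38be_al_helper12.Step

/-! Induction over supplements. -/

set_option autoImplicit false

open Subgroup
open scoped commutatorElement

universe u v

namespace Pool.Agent.MP_cb38be.H12

variable {K : Type v} [Group K]

section sub
variable {G : Type u} [Group G]

theorem noSec_sub {f : G →* K} (hs : NoSec f) (H : Subgroup G) : NoSec (f.comp H.subtype) := by
  intro R h1 h2 h3
  refine hs (R.map (H.subtype.prodMap H.subtype)) ?_ ?_ ?_
  · rintro _ ⟨x, hx, rfl⟩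
    exact h1 x hx
  · rintro _ ⟨x, hx, rfl⟩ h
    apply h2 x hx
    exact Subtype.ext h
  · intro k
    obtain ⟨x, hx, hxk⟩ := h3 k
    exact ⟨_, ⟨x, hx, rfl⟩, hxk⟩

theorem hypP_sub [Finite G] [IsSimpleGroup K] {f : G →* K} (hs : NoSec f) (hp : HypP f)
    (H : Subgroup G) (hH : Cov f H) : HypP (f.comp H.subtype) := by
  intro p hpp V hV hVk
  have := Fact.mk hpp
  set f' : H →* K := f.comp H.subtype with hf'
  -- a Sylow subgroup of the kernel containing V
  have hV' : IsPGroup p (V.subgroupOf f'.ker) := hV.comap_of_injective _ (f'.ker).subtype_injective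
  obtain ⟨P, hP⟩ := hV'.exists_le_sylow
  set W : Subgroup H := (P : Subgroup f'.ker).map f'.ker.subtype with hW
  have hVW : V ≤ W := by
    intro v hv
    exact ⟨⟨v, hVk hv⟩, hP hv, rfl⟩
  have hWp : IsPGroup p W := P.2.map _
  have hWk : W ≤ f'.ker := by
    rintro _ ⟨x, -, rfl⟩
    exact x.2
  have hfr : normalizer (W : Set H) ⊔ f'.ker = ⊤ := Sylow.normalizer_sup_eq_top P
  have hcovN : Cov f' (normalizer (W : Set H)) := by
    intro k
    obtain ⟨x, hx, hxk⟩ := hH k
    have hx' : (⟨x, hx⟩ : H) ∈ normalizer (W : Set H) ⊔ f'.ker := by rw [hfr]; trivial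
    obtain ⟨a, ha, b, hb, hab⟩ := mem_sup_of_normal_right.1 hx'
    refine ⟨a, ha, ?_⟩
    have h1 : f' (a * b) = k := by
      rw [hab]; exact hxk
    rw [map_mul, (MonoidHom.mem_ker.1 hb), mul_one] at h1
    exact h1
  -- transfer to G
  set WG : Subgroup G := W.map H.subtype with hWG
  set B : Subgroup G := (normalizer (W : Set H)).map H.subtype with hB
  have hWGp : IsPGroup p WG := hWp.map _
  have hWGk : WG ≤ f.ker := by
    rintro _ ⟨x, hx, rfl⟩
    exact hWk hx
  have hcovB : Cov f B := by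
    intro k
    obtain ⟨x, hx, hxk⟩ := hcovN k
    exact ⟨x, ⟨x, hx, rfl⟩, hxk⟩
  have hT := hp p hpp WG hWGp hWGk
  have hBW : ∀ b ∈ B, ∀ w ∈ WG, b * w * b⁻¹ ∈ WG := by
    rintro _ ⟨b, hb, rfl⟩ _ ⟨w, hw, rfl⟩
    exact ⟨b * w * b⁻¹, (mem_normalizer_iff.1 hb w).1 hw, by simp⟩
  have hkey : Cov f (B ⊓ centralizer (WG : Set G)) := by
    refine key hs (A := f.ker ⊓ normalizer (WG : Set G)) hcovB hT hBW ?_ ?_ ?_ ?_
    · intro a ha w hw
      exact (mem_normalizer_iff.1 (mem_inf.1 ha).2 w).1 hw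
    · intro t ht w hw
      exact (mem_centralizer_iff.1 ht w hw).symm
    · intro a ha
      exact (mem_inf.1 ha).1
    · intro b hb t ht hbt
      refine mem_inf.2 ⟨?_, ?_⟩
      · rw [MonoidHom.mem_ker, map_mul, map_inv, hbt, mul_inv_cancel]
      · refine mul_mem ?_ (inv_mem ?_)
        · rw [mem_normalizer_iff]
          intro w
          refine ⟨hBW b hb w, fun h => ?_⟩
          have := hBW b⁻¹ (inv_mem hb) _ h
          have e : b⁻¹ * (b * w * b⁻¹) * b⁻¹⁻¹ = w := by group
          rwa [e] at this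
        · exact centralizer_le_normalizer _ ht
  intro k
  obtain ⟨x, hx, hxk⟩ := hkey k
  obtain ⟨⟨b, hb, rfl⟩, hbc⟩ := mem_inf.1 hx
  refine ⟨b, ?_, hxk⟩
  rw [mem_centralizer_iff]
  intro v hv
  have := mem_centralizer_iff.1 hbc (v : G) ⟨v, hVW hv, rfl⟩
  exact Subtype.ext this

end sub

theorem main_ind [IsSimpleGroup K] (hK : ⁅(⊤ : Subgroup K), (⊤ : Subgroup K)⁆ = ⊤) :
    ∀ (n : ℕ) (G : Type u) [Group G] [Finite G] (f : G →* K), Nat.card G = n → Cov f ⊤ →
      NoSec f → HypP f → Cov f (centralizer (f.ker : Set G)) := by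
  intro n
  induction n using Nat.strong_induction_on with
  | _ n ih =>
    intro G _ _ f hn hsurj hs hp
    refine step hK hsurj hs hp ?_
    intro H hH hcov
    have hlt : Nat.card H < n := by
      rw [← hn]
      refine lt_of_le_of_ne (Nat.card_le_card_of_injective _ H.subtype_injective) ?_
      intro h
      exact hH (Subgroup.eq_top_of_card_eq _ h)
    have hsurj' : Cov (f.comp H.subtype) ⊤ := by
      intro k
      obtain ⟨x, hx, hxk⟩ := hcov k
      exact ⟨⟨x, hx⟩, trivial, hxk⟩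
    have h1 := ih _ hlt H (f.comp H.subtype) rfl hsurj' (noSec_sub hs H) (hypP_sub hs hp H hcov)
    intro k
    obtain ⟨x, hx, hxk⟩ := h1 k
    refine ⟨x, x.2, ?_, hxk⟩
    intro y hy hy1
    have := mem_centralizer_iff.1 hx (⟨y, hy⟩ : H) (by
      rw [SetLike.mem_coe, MonoidHom.mem_ker]
      exact hy1)
    exact (congrArg Subtype.val this).symm

end Pool.Agent.MP_cb38be.H12
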