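import Pool.Agent.Lib.MP_cb38be_al_helper12.Ind

/-! Every finite simple group is rigid relative to its inner automorphisms. -/

set_option autoImplicit false

open Subgroup
open scoped commutatorElement

universe u v

namespace Pool.Agent.MP_cb38be.H12

section gen
variable {K : Type v} [Group K] {G : Type u} [Group G]

theorem hypP_of_sylow [Finite G] [IsSimpleGroup K] {f : G →* K} (hsurj : Cov f ⊤)
    (h : ∀ p : ℕ, p.Prime → p ∣ Nat.card f.ker → ∃ P : Sylow p f.ker, ∃ x : G,
      (∀ w ∈ (P : Subgroup f.ker), x * (w : G) = (w : G) * x) ∧ f x ≠ 1) : HypP f := by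
  intro p hpp V hV hVk
  have := Fact.mk hpp
  by_cases hdvd : p ∣ Nat.card f.ker
  · obtain ⟨P, x, hx, hfx⟩ := h p hpp hdvd
    set W : Subgroup G := (P : Subgroup f.ker).map f.ker.subtype with hW
    have hfr : normalizer (W : Set G) ⊔ f.ker = ⊤ := Sylow.normalizer_sup_eq_top P
    have hcovN : Cov f (normalizer (W : Set G)) := by
      intro k
      obtain ⟨x, -, hxk⟩ := hsurj k
      have hx' : x ∈ normalizer (W : Set G) ⊔ f.ker := by rw [hfr]; trivial
      obtain ⟨a, ha, b, hb, hab⟩ := mem_sup_of_normal_right.1 hx'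
      refine ⟨a, ha, ?_⟩
      have h1 : f (a * b) = k := by
        rw [hab]; exact hxk
      rw [map_mul, (MonoidHom.mem_ker.1 hb), mul_one] at h1
      exact h1
    have hnorm : ∀ y ∈ normalizer (W : Set G), ∀ x ∈ centralizer (W : Set G),
        y * x * y⁻¹ ∈ centralizer (W : Set G) := by
      intro y hy x hx
      rw [mem_centralizer_iff] at hx ⊢
      intro w hw
      have hw' : y⁻¹ * w * y ∈ (W : Set G) := by
        have := (mem_normalizer_iff.1 (inv_mem hy) w).1 hw
        simpa using this
      have := hx _ hw'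
      calc w * (y * x * y⁻¹) = y * ((y⁻¹ * w * y) * x) * y⁻¹ := by group
        _ = y * (x * (y⁻¹ * w * y)) * y⁻¹ := by rw [this]
        _ = y * x * y⁻¹ * w := by group
    have hcC : Cov f (centralizer (W : Set G)) := by
      rcases dich f hcovN hnorm with h1 | h1
      · exfalso
        apply hfx
        apply h1
        rw [mem_centralizer_iff]
        rintro _ ⟨w, hw, rfl⟩
        exact (hx w hw).symm
      · exact h1
    have hV' : IsPGroup p (V.subgroupOf f.ker) := hV.comap_of_injective _ (f.ker).subtype_injective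
    obtain ⟨Q, hQ⟩ := hV'.exists_le_sylow
    obtain ⟨n, hn⟩ := MulAction.exists_smul_eq f.ker Q P
    intro k
    obtain ⟨y, hy, hyk⟩ := hcC k
    refine ⟨(n : G)⁻¹ * y * n, ?_, ?_⟩
    · rw [mem_centralizer_iff]
      intro v hv
      have hvQ : (⟨v, hVk hv⟩ : f.ker) ∈ (Q : Subgroup f.ker) := hQ hv
      have h1 : MulAut.conj n • (⟨v, hVk hv⟩ : f.ker) ∈ (P : Subgroup f.ker) := by
        rw [← hn, Sylow.coe_subgroup_smul]
        exact smul_mem_pointwise_smul _ _ _ hvQ
      have h2 : (n : G) * v * (n : G)⁻¹ ∈ W := by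
        refine ⟨_, h1, ?_⟩
        simp
      have h3 := mem_centralizer_iff.1 hy _ h2
      calc v * ((n : G)⁻¹ * y * n) = (n : G)⁻¹ * (((n : G) * v * (n : G)⁻¹) * y) * n := by group
        _ = (n : G)⁻¹ * (y * ((n : G) * v * (n : G)⁻¹)) * n := by rw [h3]
        _ = (n : G)⁻¹ * y * n * v := by group
    · have hn1 : f (n : G) = 1 := n.2
      simp [hn1, hyk]
  · have hV1 : V = ⊥ := by
      obtain ⟨j, hj⟩ := IsPGroup.iff_card.1 hV
      have h1 : Nat.card V ∣ Nat.card f.ker := card_dvd_of_le hVk
      rcases Nat.eq_zero_or_pos j with h0 | h0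
      · rw [h0, pow_zero] at hj
        exact Subgroup.card_eq_one.1 hj
      · exfalso
        apply hdvd
        rw [hj] at h1
        exact (dvd_pow_self p h0.ne').trans h1
    have : centralizer (V : Set G) = ⊤ := by
      rw [hV1, eq_top_iff]
      intro x _
      rw [mem_centralizer_iff]
      intro w hw
      have hw1 : w = 1 := by simpa using hw
      rw [hw1]; simp
    rw [this]
    exact hsurj

/-- If `|ker f| = |K|` and `ker f` is not isomorphic to `K`, then `K` is not a section. -/
theorem noSec_of_card [Finite G] [Finite K] {f : G →* K} (hcard : Nat.card f.ker = Nat.card K)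
    (hno : IsEmpty (f.ker ≃* K)) : NoSec f := by
  intro R h1 h2 h3
  let π₁ : R →* f.ker :=
    ((MonoidHom.fst G G).comp R.subtype).codRestrict f.ker (fun x => h1 x x.2)
  let π₂ : R →* K := f.comp ((MonoidHom.snd G G).comp R.subtype)
  have hker : π₁.ker ≤ π₂.ker := by
    intro x hx
    rw [MonoidHom.mem_ker] at hx ⊢
    exact h2 x x.2 (congrArg Subtype.val hx)
  have hs2 : Function.Surjective π₂ := by
    intro k
    obtain ⟨x, hx, hxk⟩ := h3 k
    exact ⟨⟨x, hx⟩, hxk⟩
  choose r hr using hs2
  have hinj : Function.Injective (fun k => π₁ (r k)) := by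
    intro k k' hkk
    simp only at hkk
    have h4 : (r k)⁻¹ * r k' ∈ π₁.ker := by
      rw [MonoidHom.mem_ker, map_mul, map_inv, hkk, inv_mul_cancel]
    have h5 := hker h4
    rw [MonoidHom.mem_ker, map_mul, map_inv, hr, hr] at h5
    exact (inv_mul_eq_one.1 h5)
  have hbij := hinj.bijective_of_nat_card_le hcard.le
  have hs1 : Function.Surjective π₁ := by
    intro n
    obtain ⟨k, hk⟩ := hbij.2 n
    exact ⟨_, hk⟩
  let χ : f.ker →* K := π₁.liftOfSurjective hs1 ⟨π₂, hker⟩
  have hχ : ∀ x, χ (π₁ x) = π₂ x := fun x => MonoidHom.liftOfRightInverse_comp_apply _ _ _ _ x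
  have hχs : Function.Surjective χ := by
    intro k
    exact ⟨π₁ (r k), by rw [hχ, hr]⟩
  have hχb := hχs.bijective_of_nat_card_le hcard.le
  exact hno.false (MulEquiv.ofBijective χ hχb)

end gen

section act
variable {K : Type u} {L : Type v} [Group K] [Group L]

/-- the transported conjugation action of `K` on `L` -/
noncomputable def act (e : K ≃ L)
    (h : ∀ (k : K) (x y : L), e (k * e.symm (x * y) * k⁻¹) =
      e (k * e.symm x * k⁻¹) * e (k * e.symm y * k⁻¹)) : K →* MulAut L where
  toFun k :=
    { toFun := fun y => e (k * e.symm y * k⁻¹)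
      invFun := fun y => e (k⁻¹ * e.symm y * k)
      left_inv := fun y => by simp [mul_assoc]
      right_inv := fun y => by simp [mul_assoc]
      map_mul' := h k }
  map_one' := by ext y; simp
  map_mul' a b := by
    ext y
    simp [MulAut.mul_apply, mul_assoc]

theorem act_apply (e : K ≃ L) (h) (k : K) (y : L) : act e h k y = e (k * e.symm y * k⁻¹) := rfl

theorem act_fix (e : K ≃ L) (h) (k : K) (y : L) :
    act e h k y = y ↔ k * e.symm y = e.symm y * k := by
  rw [act_apply]
  constructor
  · intro H
    have : k * e.symm y * k⁻¹ = e.symm y := by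
      apply e.injective
      simpa using H
    exact mul_inv_eq_iff_eq_mul.mp this
  · intro H
    rw [H]; simp

/-- fixed subgroup -/
def fixSub (a : MulAut L) : Subgroup L where
  carrier := {y | a y = y}
  mul_mem' := by intro x y hx hy; change a _ = _ at hx hy ⊢; rw [map_mul, hx, hy]
  one_mem' := map_one _
  inv_mem' := by intro x hx; change a _ = _ at hx ⊢; rw [map_inv, hx]

theorem mem_fixSub (a : MulAut L) (y : L) : y ∈ fixSub a ↔ a y = y := Iff.rfl

theorem card_fixSub (e : K ≃ L) (h) (x : K) :
    Nat.card (fixSub (act e h x)) = Nat.card (centralizer {x} : Subgroup K) := by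
  refine Nat.card_congr (Equiv.subtypeEquiv e ?_).symm
  intro a
  rw [mem_centralizer_singleton_iff, mem_fixSub, act_fix]
  simp [eq_comm]

/-- Some nontrivial `x` in `K` fixes a Sylow `p`-subgroup of `L` pointwise (key observation of
helper21's `SchreierReduction`). -/
theorem exists_fix_sylow [Finite K] [Finite L] (e : K ≃ L) (h) (p : ℕ) [Fact p.Prime]
    (hp : p ∣ Nat.card K) :
    ∃ x : K, x ≠ 1 ∧ ∃ Q : Sylow p L, (Q : Subgroup L) ≤ fixSub (act e h x) := by
  obtain ⟨R⟩ : Nonempty (Sylow p K) := inferInstance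
  have hR1 : Nontrivial (R : Subgroup K) := by
    rw [← Finite.one_lt_card_iff_nontrivial]
    have := R.card_eq_multiplicity
    rw [this]
    apply Nat.one_lt_pow
    · have : Nat.card K ≠ 0 := Nat.card_pos.ne'
      exact (Nat.Prime.factorization_pos_of_dvd Fact.out this hp).ne'
    · exact (Fact.out : p.Prime).one_lt
  have hZ := R.2.center_nontrivial
  obtain ⟨z, hz⟩ := exists_ne (1 : center (R : Subgroup K))
  refine ⟨((z : (R : Subgroup K)) : K), ?_, ?_⟩
  · intro hh
    apply hz
    ext
    simpa using hh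
  set x : K := ((z : (R : Subgroup K)) : K) with hx
  have hRle : (R : Subgroup K) ≤ centralizer {x} := by
    intro r hr
    rw [mem_centralizer_singleton_iff]
    have := mem_center_iff.mp z.2 ⟨r, hr⟩
    have h2 := congrArg (Subtype.val) this
    simpa [hx] using h2
  set F := fixSub (act e h x) with hF
  obtain ⟨Q⟩ : Nonempty (Sylow p F) := inferInstance
  set Q' : Subgroup L := (Q : Subgroup F).map F.subtype with hQ'
  have hQ'p : IsPGroup p Q' := Q.2.map _
  have hcardL : Nat.card L = Nat.card K := (Nat.card_congr e).symm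
  have hcard : Nat.card Q' = p ^ (Nat.card F).factorization p := by
    rw [hQ', Subgroup.card_map_of_injective F.subtype_injective]
    exact Q.card_eq_multiplicity
  have hdiv : Nat.card (R : Subgroup K) ∣ Nat.card F := by
    rw [hF, card_fixSub]
    exact card_dvd_of_le hRle
  have hle : (Nat.card L).factorization p ≤ (Nat.card F).factorization p := by
    rw [R.card_eq_multiplicity, ← hcardL] at hdiv
    rwa [(Fact.out : p.Prime).pow_dvd_iff_le_factorization Nat.card_pos.ne'] at hdiv
  obtain ⟨S, hS⟩ := hQ'p.exists_le_sylow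
  have hQS : Q' = S := by
    apply Subgroup.eq_of_le_of_card_ge hS
    rw [S.card_eq_multiplicity, hcard]
    exact Nat.pow_le_pow_right (Fact.out : p.Prime).pos hle
  refine ⟨S, ?_⟩
  rw [← hQS, hQ']
  exact Subgroup.map_subtype_le _

end act

/-- **Rigidity of nonabelian finite simple groups relative to inner automorphisms.** -/
theorem rigid_of_center_eq_bot {K : Type u} {L : Type v} [Group K] [Finite K] [IsSimpleGroup K]
    [Group L] (hZ : center K = ⊥) (e : K ≃ L)
    (h : ∀ (k : K) (x y : L), e (k * e.symm (x * y) * k⁻¹) =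
      e (k * e.symm x * k⁻¹) * e (k * e.symm y * k⁻¹)) : Nonempty (L ≃* K) := by
  by_contra hno
  rw [not_nonempty_iff] at hno
  have : Finite L := Finite.of_equiv K e
  have hcardL : Nat.card L = Nat.card K := (Nat.card_congr e).symm
  set φ : K →* MulAut L := act e h with hφ
  have : Finite (L ⋊[φ] K) := Finite.of_equiv (L × K) SemidirectProduct.equivProd.symm
  set f : (L ⋊[φ] K) →* K := SemidirectProduct.rightHom with hf
  have hrange : (SemidirectProduct.inl : L →* L ⋊[φ] K).range = f.ker :=
    SemidirectProduct.range_inl_eq_ker_rightHom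
  let ψ : L ≃* f.ker :=
    (MonoidHom.ofInjective SemidirectProduct.inl_injective).trans (MulEquiv.subgroupCongr hrange)
  have hψ : ∀ y : L, ((ψ y : f.ker) : L ⋊[φ] K) = SemidirectProduct.inl y := fun y => rfl
  have hcard : Nat.card f.ker = Nat.card K := by
    rw [← hcardL]
    exact (Nat.card_congr ψ.toEquiv).symm
  have hs : NoSec f := noSec_of_card hcard ⟨fun χ => hno.false (ψ.trans χ)⟩
  have hsurj : Cov f ⊤ := by
    intro k
    exact ⟨SemidirectProduct.inr k, trivial, SemidirectProduct.rightHom_inr k⟩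
  have hK : ⁅(⊤ : Subgroup K), (⊤ : Subgroup K)⁆ = ⊤ := by
    rcases (inferInstance : (⁅(⊤ : Subgroup K), (⊤ : Subgroup K)⁆).Normal).eq_bot_or_eq_top
      with h1 | h1
    · exfalso
      have h2 : commutator K = ⊥ := h1
      rw [commutator_eq_bot_iff_center_eq_top, hZ] at h2
      exact bot_ne_top h2
    · exact h1
  have hp : HypP f := by
    apply hypP_of_sylow hsurj
    intro p hpp hdvd
    have := Fact.mk hpp
    rw [hcard] at hdvd
    obtain ⟨x, hx1, Q, hQ⟩ := exists_fix_sylow e h p hdvd
    refine ⟨Q.mapSurjective (f := ψ.toMonoidHom) ψ.surjective, SemidirectProduct.inr x, ?_, ?_⟩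
    · intro w hw
      rw [Sylow.coe_mapSurjective] at hw
      obtain ⟨q, hq, rfl⟩ := hw
      have h1 : φ x q = q := hQ hq
      have h2 := SemidirectProduct.inl_aut (φ := φ) x q
      rw [h1] at h2
      rw [map_inv] at h2
      change (SemidirectProduct.inr x : L ⋊[φ] K) * SemidirectProduct.inl q =
        SemidirectProduct.inl q * SemidirectProduct.inr x
      exact (eq_mul_inv_iff_mul_eq.1 h2).symm
    · rw [hf, SemidirectProduct.rightHom_inr]
      exact hx1
  have hfin := main_ind hK (Nat.card (L ⋊[φ] K)) (L ⋊[φ] K) f rfl hsurj hs hp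
  -- K acts by inner automorphisms: contradiction again
  have hkernorm : ∀ a ∈ f.ker, ∀ w ∈ f.ker, a * w * a⁻¹ ∈ f.ker :=
    fun a ha w hw => mul_mem (mul_mem ha hw) (inv_mem ha)
  refine hs (rel f.ker (SemidirectProduct.inr : K →* L ⋊[φ] K).range f.ker hkernorm) ?_ ?_ ?_
  · rintro x ⟨h1, -, -⟩
    exact h1
  · rintro x ⟨-, ⟨k, hk⟩, h3⟩ hx1
    have hk1 : ∀ y : L, φ k y = y := by
      intro y
      have hy : (SemidirectProduct.inl y : L ⋊[φ] K) ∈ f.ker := by
        rw [← hrange]; exact ⟨y, rfl⟩
      have h4 := h3 _ hy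
      rw [hx1, ← hk] at h4
      have h5 := SemidirectProduct.inl_aut (φ := φ) k y
      rw [map_inv] at h5
      rw [← h5] at h4
      simp only [one_mul, inv_one, mul_one] at h4
      exact (SemidirectProduct.inl_injective h4).symm
    have hkc : k ∈ center K := by
      rw [mem_center_iff]
      intro g
      have := (act_fix e h k (e g)).1 (hk1 (e g))
      rw [e.symm_apply_apply] at this
      exact this.symm
    rw [hZ, mem_bot] at hkc
    rw [← hk, hkc, map_one, map_one]
  · intro k
    obtain ⟨c, hc, hck⟩ := hfin k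
    have hfk : f (SemidirectProduct.inr k) = k := SemidirectProduct.rightHom_inr k
    refine ⟨(SemidirectProduct.inr k * c⁻¹, SemidirectProduct.inr k), ⟨?_, ⟨k, rfl⟩, ?_⟩, hfk⟩
    · rw [MonoidHom.mem_ker, map_mul, map_inv, hfk, hck, mul_inv_cancel]
    · intro w hw
      have hcw := mem_centralizer_iff.1 hc w hw
      simp only
      calc (SemidirectProduct.inr k * c⁻¹) * w * (SemidirectProduct.inr k * c⁻¹)⁻¹
          = SemidirectProduct.inr k * c⁻¹ * (w * c) * (SemidirectProduct.inr k)⁻¹ := by group
        _ = SemidirectProduct.inr k * c⁻¹ * (c * w) * (SemidirectProduct.inr k)⁻¹ := by rw [hcw]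
        _ = SemidirectProduct.inr k * w * (SemidirectProduct.inr k)⁻¹ := by group

theorem rigid {K : Type u} {L : Type v} [Group K] [Finite K] [IsSimpleGroup K]
    [Group L] (e : K ≃ L)
    (h : ∀ (k : K) (x y : L), e (k * e.symm (x * y) * k⁻¹) =
      e (k * e.symm x * k⁻¹) * e (k * e.symm y * k⁻¹)) : Nonempty (L ≃* K) := by
  rcases (inferInstance : (center K).Normal).eq_bot_or_eq_top with hZ | hZ
  · exact rigid_of_center_eq_bot hZ e h
  · have hcomm : ∀ a b : K, a * b = b * a := by
      intro a b
      have : b ∈ center K := by rw [hZ]; trivial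
      exact (mem_center_iff.mp this a)
    have hp : (Nat.card K).Prime := by
      let _ : CommGroup K := { (inferInstance : Group K) with mul_comm := hcomm }
      exact IsSimpleGroup.prime_card
    have := Fact.mk hp
    have hL : Nat.card L = Nat.card K := (Nat.card_congr e).symm
    exact ⟨mulEquivOfPrimeCardEq hL rfl⟩

end Pool.Agent.MP_cb38be.H12
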