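import Pool.Agent.Lib.MP_cb38be_al_helper12.Cent
import Pool.Agent.Lib.MP_cb38be_al_helper12.Count

/-! The inductive step. -/

set_option autoImplicit false

open Subgroup
open scoped commutatorElement

universe u v

namespace Pool.Agent.MP_cb38be.H12

variable {K : Type v} {G : Type u} [Group K] [Group G]

/-- `p`-subgroups of the kernel are centralised modulo the kernel -/
def HypP (f : G →* K) : Prop :=
  ∀ p : ℕ, p.Prime → ∀ V : Subgroup G, IsPGroup p V → V ≤ f.ker →
    Cov f (centralizer (V : Set G))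

/-- inductive hypothesis: proper supplements -/
def HypI (f : G →* K) : Prop :=
  ∀ H : Subgroup G, H ≠ ⊤ → Cov f H →
    ∀ k : K, ∃ x ∈ H, (∀ y ∈ H, f y = 1 → x * y = y * x) ∧ f x = k

theorem DD_cov {f : G →* K} (hI : HypI f) {S : Set G} (h : Cov f (centralizer S))
    (hne : centralizer S ≠ ⊤) : Cov f (DD f S) := by
  intro k
  obtain ⟨x, hx, hxc, hxk⟩ := hI _ hne h k
  refine ⟨x, mem_inf.2 ⟨hx, ?_⟩, hxk⟩
  rw [mem_centralizer_iff]
  intro y hy
  obtain ⟨h1, h2⟩ := mem_inf.1 hy
  exact (hxc y h2 h1).symm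

theorem exists_prime_power [Finite G] {g : G} (hg : g ∉ center G) :
    ∃ (p : ℕ) (n : ℕ), p.Prime ∧ IsPGroup p (zpowers (g ^ n)) ∧ g ^ n ∉ center G := by
  set m := orderOf (QuotientGroup.mk g : G ⧸ center G) with hm
  have hm1 : m ≠ 1 := by
    intro h
    rw [hm, orderOf_eq_one_iff, QuotientGroup.eq_one_iff] at h
    exact hg h
  have hp : m.minFac.Prime := Nat.minFac_prime hm1
  set p := m.minFac
  have hn0 : orderOf g ≠ 0 := (orderOf_pos g).ne'
  refine ⟨p, ordCompl[p] (orderOf g), hp, ?_, ?_⟩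
  · have hfact := Fact.mk hp
    apply IsPGroup.of_card (n := (orderOf g).factorization p)
    rw [Nat.card_zpowers, orderOf_pow_of_dvd (Nat.ordCompl_pos p hn0).ne' (Nat.ordCompl_dvd _ _)]
    apply Nat.div_eq_of_eq_mul_left (Nat.ordCompl_pos p hn0)
    exact (Nat.ordProj_mul_ordCompl_eq_self _ _).symm
  · intro h
    have h1 : (QuotientGroup.mk g : G ⧸ center G) ^ (ordCompl[p] (orderOf g)) = 1 := by
      rw [← QuotientGroup.mk_pow, QuotientGroup.eq_one_iff]
      exact h
    have h2 : m ∣ ordCompl[p] (orderOf g) := orderOf_dvd_of_pow_eq_one h1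
    exact Nat.not_dvd_ordCompl hp hn0 ((Nat.minFac_dvd m).trans h2)

theorem good_elt [Finite G] {f : G →* K} (hsurj : Cov f ⊤) (hp : HypP f) (hI : HypI f) {g : G}
    (hg1 : f g = 1) : Cov f (centralizer ({g} : Set G)) := by
  by_cases hg : g ∈ center G
  · have : centralizer ({g} : Set G) = ⊤ := by
      rw [eq_top_iff]
      intro x _
      rw [mem_centralizer_singleton_iff]
      exact (mem_center_iff.1 hg x)
    rw [this]
    exact hsurj
  · obtain ⟨p, n, hpp, hP, hc⟩ := exists_prime_power hg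
    have hker : zpowers (g ^ n) ≤ f.ker := by
      rw [zpowers_le, MonoidHom.mem_ker, map_pow, hg1, one_pow]
    have h1 := hp p hpp _ hP hker
    have hne : centralizer ((zpowers (g ^ n) : Subgroup G) : Set G) ≠ ⊤ := by
      intro h
      apply hc
      rw [mem_center_iff]
      intro x
      have : x ∈ centralizer ((zpowers (g ^ n) : Subgroup G) : Set G) := by rw [h]; trivial
      exact (mem_centralizer_iff.1 this _ (mem_zpowers _)).symm
    intro k
    obtain ⟨x, hx, hxc, hxk⟩ := hI _ hne h1 k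
    refine ⟨x, ?_, hxk⟩
    rw [mem_centralizer_singleton_iff]
    apply hxc g _ hg1
    rw [mem_centralizer_iff]
    intro w hw
    obtain ⟨j, rfl⟩ := mem_zpowers_iff.1 hw
    have h2 : Commute (g ^ n) g := (Commute.refl g).pow_left n
    exact (h2.zpow_left j).eq

theorem step [Finite G] [IsSimpleGroup K] {f : G →* K}
    (hK : ⁅(⊤ : Subgroup K), (⊤ : Subgroup K)⁆ = ⊤) (hsurj : Cov f ⊤) (hs : NoSec f)
    (hp : HypP f) (hI : HypI f) : Cov f (centralizer (f.ker : Set G)) := by
  by_contra hn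
  have star : ∀ x ∈ centralizer (f.ker : Set G), f x = 1 := by
    have hnorm : ∀ y ∈ (⊤ : Subgroup G), ∀ x ∈ centralizer (f.ker : Set G),
        y * x * y⁻¹ ∈ centralizer (f.ker : Set G) := by
      intro y _ x hx
      rw [mem_centralizer_iff] at hx ⊢
      intro w hw
      have hw' : y⁻¹ * w * y ∈ (f.ker : Set G) := by
        rw [SetLike.mem_coe, MonoidHom.mem_ker] at hw ⊢
        simp [hw]
      have := hx _ hw'
      calc w * (y * x * y⁻¹) = y * ((y⁻¹ * w * y) * x) * y⁻¹ := by group
        _ = y * (x * (y⁻¹ * w * y)) * y⁻¹ := by rw [this]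
        _ = y * x * y⁻¹ * w := by group
    rcases dich f hsurj hnorm with h | h
    · exact h
    · exact absurd h hn
  have ncent : ∀ g : G, g ∉ centralizer (f.ker : Set G) → centralizer ({g} : Set G) ≠ ⊤ := by
    intro g hg h
    apply hg
    rw [mem_centralizer_iff]
    intro w _
    have : w ∈ centralizer ({g} : Set G) := by rw [h]; trivial
    exact (mem_centralizer_singleton_iff.1 this)
  have covD : ∀ g : G, f g = 1 → g ∉ centralizer (f.ker : Set G) → Cov f (DD f {g}) :=
    fun g hg1 hg => DD_cov hI (good_elt hsurj hp hI hg1) (ncent g hg)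
  have Eeq : ∀ g h : G, f g = 1 → g ∉ centralizer (f.ker : Set G) → f h = 1 →
      h ∈ centralizer (EE f {g} : Set G) → h ∉ centralizer (f.ker : Set G) →
      EE f {h} = EE f {g} := by
    intro g h hg1 hg hh1 hhc hh
    set S : Set G := ((f.ker ⊓ centralizer (EE f {g} : Set G) : Subgroup G) : Set G) with hS
    have hgS : g ∈ S := by
      refine mem_inf.2 ⟨hg1, ?_⟩
      rw [mem_centralizer_iff]
      intro e he
      exact mem_centralizer_singleton_iff.1 ((EE_le f {g} he).1)
    have hhS : h ∈ S := mem_inf.2 ⟨hh1, hhc⟩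
    have hcS : Cov f (centralizer S) := by
      apply (EE_cov hK (covD g hg1 hg)).mono
      intro e he
      rw [mem_centralizer_iff]
      intro s hs'
      exact (mem_centralizer_iff.1 (mem_inf.1 hs').2 e he).symm
    have hneS : centralizer S ≠ ⊤ := by
      intro htop
      apply ncent g hg
      rw [eq_top_iff, ← htop]
      exact centralizer_le (Set.singleton_subset_iff.2 hgS)
    have hDS := DD_cov hI hcS hneS
    rw [EE_eq hs (Set.singleton_subset_iff.2 hgS) (covD g hg1 hg) hDS,
      EE_eq hs (Set.singleton_subset_iff.2 hhS) (covD h hh1 hh) hDS]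
  set Z : Subgroup f.ker := (centralizer (f.ker : Set G)).subgroupOf f.ker with hZdef
  let M : f.ker → Subgroup f.ker := fun g =>
    (centralizer (EE f {(g : G)} : Set G)).subgroupOf f.ker
  have memZ : ∀ g : f.ker, g ∈ Z ↔ (g : G) ∈ centralizer (f.ker : Set G) := fun g =>
    mem_subgroupOf
  have memM : ∀ g h : f.ker, h ∈ M g ↔ (h : G) ∈ centralizer (EE f {(g : G)} : Set G) :=
    fun g h => mem_subgroupOf
  have hself : ∀ g, g ∈ M g := by
    intro g
    rw [memM, mem_centralizer_iff]
    intro e he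
    exact mem_centralizer_singleton_iff.1 ((EE_le f {(g : G)} he).1)
  have heq' : ∀ g h : f.ker, g ∉ Z → h ∈ M g → h ∉ Z → EE f {(h : G)} = EE f {(g : G)} := by
    intro g h hg hh hhZ
    rw [memZ] at hg hhZ
    rw [memM] at hh
    exact Eeq g h g.2 hg h.2 hh hhZ
  have heq : ∀ g h, g ∉ Z → h ∈ M g → h ∉ Z → M h = M g := by
    intro g h hg hh hhZ
    simp only [M]
    rw [heq' g h hg hh hhZ]
  have hconj : ∀ y g h : f.ker, h ∈ M (y * g * y⁻¹) ↔ y⁻¹ * h * y ∈ M g := by
    intro y g h
    rw [memM, memM, mem_centralizer_iff, mem_centralizer_iff]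
    have hc : ((y * g * y⁻¹ : f.ker) : G) = (y : G) * g * (y : G)⁻¹ := by simp
    have hc' : ((y⁻¹ * h * y : f.ker) : G) = (y : G)⁻¹ * h * (y : G) := by simp
    rw [hc, hc']
    constructor
    · intro H e he
      have h1 : (y : G) * e * (y : G)⁻¹ ∈ EE f {(y : G) * g * (y : G)⁻¹} := by
        rw [mem_EE_conj]
        have : (y : G)⁻¹ * ((y : G) * e * (y : G)⁻¹) * y = e := by group
        rw [this]; exact he
      have h2 := H _ h1
      calc e * ((y : G)⁻¹ * h * y) = (y : G)⁻¹ * (((y : G) * e * (y : G)⁻¹) * h) * y := by group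
        _ = (y : G)⁻¹ * (h * ((y : G) * e * (y : G)⁻¹)) * y := by rw [h2]
        _ = (y : G)⁻¹ * h * y * e := by group
    · intro H e he
      have h1 : (y : G)⁻¹ * e * y ∈ EE f {(g : G)} := by
        rw [← mem_EE_conj]; exact he
      have h2 := H _ h1
      calc e * (h : G) = y * (((y : G)⁻¹ * e * y) * ((y : G)⁻¹ * h * y)) * (y : G)⁻¹ := by group
        _ = y * (((y : G)⁻¹ * h * y) * ((y : G)⁻¹ * e * y)) * (y : G)⁻¹ := by rw [h2]
        _ = (h : G) * e := by group
  have hZc : ∀ y g : f.ker, g ∉ Z → y * g * y⁻¹ ∉ Z := by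
    intro y g hg h
    apply hg
    rw [memZ] at h ⊢
    have hgc : (y : G) * g * (y : G)⁻¹ ∈ centralizer (f.ker : Set G) := by simpa using h
    have h1 := mem_centralizer_iff.1 hgc y y.2
    have h2 : (g : G) = (y : G) * g * (y : G)⁻¹ := by
      calc (g : G) = (y : G)⁻¹ * ((y : G) * g * (y : G)⁻¹ * y) := by group
        _ = (y : G)⁻¹ * (y * ((y : G) * g * (y : G)⁻¹)) := by rw [h1]
        _ = (y : G) * g * (y : G)⁻¹ := by group
    rw [h2]
    exact hgc
  refine count_contra Z M ?_ (fun g _ => hself g) heq (fun y g h _ => hconj y g h) hZc ?_ ?_ ?_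
  · -- Z ≤ M g
    intro g _ z hz
    rw [memZ] at hz
    rw [memM, mem_centralizer_iff]
    intro e he
    have hzc : (z : G) ∈ centralizer ({(g : G)} : Set G) := by
      rw [mem_centralizer_singleton_iff]
      exact (mem_centralizer_iff.1 hz g g.2).symm
    exact (DD_comm hzc z.2 (EE_le f _ he)).symm
  · -- self-normalising
    intro g y hg hy
    have hMM : M (y * g * y⁻¹) = M g := by
      ext h
      rw [hconj, ← hy]
    have hmem : y * g * y⁻¹ ∈ M g := by
      rw [← hMM]; exact hself _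
    have hE : EE f {((y * g * y⁻¹ : f.ker) : G)} = EE f {(g : G)} :=
      heq' g _ hg hmem (hZc y g hg)
    have hc : ((y * g * y⁻¹ : f.ker) : G) = (y : G) * g * (y : G)⁻¹ := by simp
    rw [hc] at hE
    have hyE : ∀ e ∈ EE f {(g : G)}, (y : G) * e * (y : G)⁻¹ ∈ EE f {(g : G)} := by
      intro e he
      rw [← hE, mem_EE_conj]
      have : (y : G)⁻¹ * ((y : G) * e * (y : G)⁻¹) * y = e := by group
      rw [this]; exact he
    have hperf := EE_perfect hK (covD g g.2 ((memZ g).not.1 hg))
    have hle : EE f {(g : G)} ≤ centralizer ({(y : G)} : Set G) := by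
      rw [← hperf, commutator_le]
      intro a ha b hb
      rw [mem_centralizer_singleton_iff, commutatorElement_def]
      have hya := hyE a ha
      have hyb := hyE b hb
      have hza : (y : G) * a * (y : G)⁻¹ * a⁻¹ ∈ DD f {(g : G)} :=
        EE_le f _ (mul_mem hya (inv_mem ha))
      have hzb : (y : G) * b * (y : G)⁻¹ * b⁻¹ ∈ DD f {(g : G)} :=
        EE_le f _ (mul_mem hyb (inv_mem hb))
      have hy1 : f (y : G) = 1 := y.2
      have hza1 : f ((y : G) * a * (y : G)⁻¹ * a⁻¹) = 1 := by simp [hy1]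
      have hzb1 : f ((y : G) * b * (y : G)⁻¹ * b⁻¹) = 1 := by simp [hy1]
      have ca := DD_comm' _ hza hza1
      have cb := DD_comm' _ hzb hzb1
      set z := (y : G) * a * (y : G)⁻¹ * a⁻¹ with hz
      set z' := (y : G) * b * (y : G)⁻¹ * b⁻¹ with hz'
      have hya' : (y : G) * a * (y : G)⁻¹ = z * a := by rw [hz]; group
      have hyb' : (y : G) * b * (y : G)⁻¹ = z' * b := by rw [hz']; group
      have haD := EE_le f _ ha
      have hbD := EE_le f _ hb
      have e1 : z * (z' * b) = (z' * b) * z := ca _ (mul_mem hzb hbD)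
      have e2 : z' * a⁻¹ = a⁻¹ * z' := cb _ (inv_mem haD)
      have e3 : z' * a = a * z' := cb _ haD
      have e4 : z * a = a * z := ca _ haD
      have key1 : (y : G) * (a * b * a⁻¹ * b⁻¹) * (y : G)⁻¹ = a * b * a⁻¹ * b⁻¹ := by
        calc (y : G) * (a * b * a⁻¹ * b⁻¹) * (y : G)⁻¹
            = ((y : G) * a * (y : G)⁻¹) * ((y : G) * b * (y : G)⁻¹) *
              ((y : G) * a * (y : G)⁻¹)⁻¹ * ((y : G) * b * (y : G)⁻¹)⁻¹ := by group
          _ = (z * a) * (z' * b) * (z * a)⁻¹ * (z' * b)⁻¹ := by rw [hya', hyb']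
          _ = (a * z) * (z' * b) * (z * a)⁻¹ * (z' * b)⁻¹ := by rw [e4]
          _ = a * (z * (z' * b)) * (z * a)⁻¹ * (z' * b)⁻¹ := by group
          _ = a * ((z' * b) * z) * (z * a)⁻¹ * (z' * b)⁻¹ := by rw [e1]
          _ = (a * z') * b * (z * (z * a)⁻¹) * (z' * b)⁻¹ := by group
          _ = (a * z') * b * (z * (a * z)⁻¹) * (z' * b)⁻¹ := by rw [e4]
          _ = (z' * a) * b * a⁻¹ * b⁻¹ * z'⁻¹ := by rw [← e3]; group
          _ = z' * (a * b * a⁻¹ * b⁻¹) * z'⁻¹ := by group
          _ = (a * b * a⁻¹ * b⁻¹) * z' * z'⁻¹ := by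
              rw [cb _ (mul_mem (mul_mem (mul_mem haD hbD) (inv_mem haD)) (inv_mem hbD))]
          _ = a * b * a⁻¹ * b⁻¹ := by group
      calc a * b * a⁻¹ * b⁻¹ * y
          = ((y : G) * (a * b * a⁻¹ * b⁻¹) * (y : G)⁻¹) * y := by rw [key1]
        _ = (y : G) * (a * b * a⁻¹ * b⁻¹) := by group
    rw [memM, mem_centralizer_iff]
    intro e he
    exact mem_centralizer_singleton_iff.1 (hle he)
  · -- proper
    intro g hg htop
    have hE := EE_cov hK (covD g g.2 ((memZ g).not.1 hg))
    obtain ⟨k, hk⟩ := exists_ne (1 : K)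
    obtain ⟨x, hx, hxk⟩ := hE k
    apply hk
    rw [← hxk]
    apply star
    rw [mem_centralizer_iff]
    intro w hw
    have : (⟨w, hw⟩ : f.ker) ∈ M g := by rw [htop]; trivial
    rw [memM] at this
    exact (mem_centralizer_iff.1 this x hx).symm
  · -- the kernel is not abelian
    intro htop
    apply hn
    have hall : ∀ g : G, f g = 1 → centralizer ({g} : Set G) = ⊤ := by
      intro g hg1
      have hgZ : (⟨g, hg1⟩ : f.ker) ∈ Z := by rw [htop]; trivial
      rw [memZ] at hgZ
      rw [eq_top_iff]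
      intro x _
      obtain ⟨c, hc, hcx⟩ := good_elt hsurj hp hI hg1 (f x)
      have hcx1 : f (x * c⁻¹) = 1 := by rw [map_mul, map_inv, hcx, mul_inv_cancel]
      have h1 : x * c⁻¹ ∈ centralizer ({g} : Set G) := by
        rw [mem_centralizer_singleton_iff]
        exact mem_centralizer_iff.1 hgZ _ hcx1
      have h2 := mul_mem h1 hc
      simpa using h2
    have : centralizer (f.ker : Set G) = ⊤ := by
      rw [eq_top_iff]
      intro x _
      rw [mem_centralizer_iff]
      intro w hw
      have : x ∈ centralizer ({w} : Set G) := by rw [hall w hw]; trivial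
      exact (mem_centralizer_singleton_iff.1 this).symm
    rw [this]
    exact hsurj

end Pool.Agent.MP_cb38be.H12
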